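import Mathlib

/-! Symplectic contents: only the doubled distinct diagrams contribute. -/

namespace Pool.Agent.H611CH

open Finset

/-- hook length of the cell `(i, j)` (indices from `0`) -/
def hook (μ : YoungDiagram) (c : ℕ × ℕ) : ℚ :=
  ((μ.rowLen c.1 : ℚ) - (c.2 + 1)) + ((μ.colLen c.2 : ℚ) - (c.1 + 1)) + 1

/-- symplectic content of the cell `(i, j)` (indices from `0`) -/
def csp (μ : YoungDiagram) (c : ℕ × ℕ) : ℚ :=
  if c.2 < c.1 then
    ((μ.rowLen c.1 : ℚ) - (c.1 + 1)) + ((μ.rowLen c.2 : ℚ) - (c.2 + 1)) + 2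
  else -((μ.colLen c.1 : ℚ) - (c.1 + 1)) - ((μ.colLen c.2 : ℚ) - (c.2 + 1))

/-- doubled distinct diagrams -/
def DD (μ : YoungDiagram) : Prop := ∀ i j, i ≤ j → ((i, j) ∈ μ ↔ (j + 1, i) ∈ μ)

theorem lt_iff (μ : YoungDiagram) (i j : ℕ) : j < μ.rowLen i ↔ i < μ.colLen j := by
  rw [← YoungDiagram.mem_iff_lt_rowLen, YoungDiagram.mem_iff_lt_colLen]

theorem mem_row (μ : YoungDiagram) (i j : ℕ) : (i, j) ∈ μ ↔ j < μ.rowLen i :=
  YoungDiagram.mem_iff_lt_rowLen

theorem U (μ : YoungDiagram)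
    (H : ∀ i j, i ≤ j → (i, j) ∈ μ → (i : ℤ) + j + 2 - μ.colLen i - μ.colLen j ≠ 0)
    (i : ℕ) (hi : i < μ.rowLen i)
    (hlt : (μ.colLen i : ℤ) - i - 1 < (μ.rowLen i : ℤ) - i) :
    ∃ k, k < μ.rowLen k ∧ (μ.rowLen k : ℤ) - k = (μ.colLen i : ℤ) - i - 1 := by
  have hci : i < μ.colLen i := (lt_iff μ i i).1 hi
  have hb : (1 : ℤ) ≤ (μ.colLen i : ℤ) - i - 1 := by
    have := H i i le_rfl ((mem_row μ i i).2 hi)
    omega
  have hex : ∃ k, (μ.rowLen k : ℤ) - k ≤ (μ.colLen i : ℤ) - i - 1 := by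
    refine ⟨μ.rowLen 0, ?_⟩
    have := μ.rowLen_anti 0 (μ.rowLen 0) (Nat.zero_le _)
    omega
  classical
  set k := Nat.find hex with hk
  have hk1 : (μ.rowLen k : ℤ) - k ≤ (μ.colLen i : ℤ) - i - 1 := Nat.find_spec hex
  have hk2 : ∀ k' < k, (μ.colLen i : ℤ) - i - 1 < (μ.rowLen k' : ℤ) - k' := by
    intro k' hk'
    have := Nat.find_min hex hk'
    omega
  rcases eq_or_lt_of_le hk1 with he | hl
  · exact ⟨k, by omega, he⟩
  · exfalso
    have hik : i < k := by
      by_contra hcon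
      have h1 := μ.rowLen_anti k i (by omega)
      omega
    obtain ⟨l, hl'⟩ : ∃ l : ℕ, (l : ℤ) = (μ.colLen i : ℤ) - i - 1 + k - 1 :=
      ⟨((μ.colLen i : ℤ) - i - 1 + k - 1).toNat, by omega⟩
    have h1 : k - 1 < μ.colLen l := by
      rw [← lt_iff]
      have := hk2 (k - 1) (by omega)
      omega
    have h2 : ¬ k < μ.colLen l := by
      rw [← lt_iff]
      omega
    have hil : i < μ.colLen l := by omega
    have := H i l (by omega) ((mem_row μ i l).2 ((lt_iff μ i l).2 hil))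
    omega

theorem L (μ : YoungDiagram)
    (H : ∀ i j, j < i → (i, j) ∈ μ → (μ.rowLen i : ℤ) + μ.rowLen j - i - j ≠ 0)
    (j : ℕ) (hj : j < μ.rowLen j)
    (hlt : (μ.rowLen j : ℤ) - j < (μ.colLen j : ℤ) - j - 1) :
    ∃ l, l < μ.rowLen l ∧ (μ.colLen l : ℤ) - l - 1 = (μ.rowLen j : ℤ) - j := by
  have hex : ∃ l, (μ.colLen l : ℤ) - l - 1 ≤ (μ.rowLen j : ℤ) - j := by
    refine ⟨μ.colLen 0, ?_⟩
    have := μ.colLen_anti 0 (μ.colLen 0) (Nat.zero_le _)
    omega
  classical
  set l := Nat.find hex with hl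
  have hl1 : (μ.colLen l : ℤ) - l - 1 ≤ (μ.rowLen j : ℤ) - j := Nat.find_spec hex
  have hl2 : ∀ l' < l, (μ.rowLen j : ℤ) - j < (μ.colLen l' : ℤ) - l' - 1 := by
    intro l' hl'
    have := Nat.find_min hex hl'
    omega
  rcases eq_or_lt_of_le hl1 with he | hl3
  · refine ⟨l, ?_, he⟩
    rw [lt_iff]
    omega
  · exfalso
    have hjl : j < l := by
      by_contra hcon
      have h1 := μ.colLen_anti l j (by omega)
      omega
    obtain ⟨k, hk'⟩ : ∃ k : ℕ, (k : ℤ) = (μ.rowLen j : ℤ) - j + l :=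
      ⟨((μ.rowLen j : ℤ) - j + l).toNat, by omega⟩
    have h1 : l - 1 < μ.rowLen k := by
      rw [lt_iff]
      have := hl2 (l - 1) (by omega)
      omega
    have h2 : ¬ l < μ.rowLen k := by
      rw [lt_iff]
      omega
    have hjk : j < μ.rowLen k := by omega
    have := H k j (by omega) ((mem_row μ k j).2 hjk)
    omega

theorem col_eq_of_ne_zero (μ : YoungDiagram)
    (H1 : ∀ i j, i ≤ j → (i, j) ∈ μ → (i : ℤ) + j + 2 - μ.colLen i - μ.colLen j ≠ 0)
    (H2 : ∀ i j, j < i → (i, j) ∈ μ → (μ.rowLen i : ℤ) + μ.rowLen j - i - j ≠ 0) :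
    ∀ i, i < μ.rowLen i → μ.colLen i = μ.rowLen i + 1 := by
  have key : ∀ n i, μ.rowLen 0 - i = n → i < μ.rowLen i → μ.colLen i = μ.rowLen i + 1 := by
    intro n
    induction n using Nat.strong_induction_on with
    | _ n ih =>
    intro i hn hi
    have hi0 : μ.rowLen i ≤ μ.rowLen 0 := μ.rowLen_anti 0 i (Nat.zero_le _)
    rcases lt_trichotomy ((μ.rowLen i : ℤ) - i) ((μ.colLen i : ℤ) - i - 1) with h | h | h
    · exfalso
      obtain ⟨l, hl, he⟩ := L μ H2 i hi h
      have hil : i < l := by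
        by_contra hcon
        have h1 := μ.colLen_anti l i (by omega)
        omega
      have hl0 : μ.rowLen l ≤ μ.rowLen 0 := μ.rowLen_anti 0 l (Nat.zero_le _)
      have h1 := ih (μ.rowLen 0 - l) (by omega) l rfl hl
      have h2 := μ.rowLen_anti i l hil.le
      omega
    · omega
    · exfalso
      obtain ⟨k, hk, he⟩ := U μ H1 i hi h
      have hik : i < k := by
        by_contra hcon
        have h1 := μ.rowLen_anti k i (by omega)
        omega
      have hk0 : μ.rowLen k ≤ μ.rowLen 0 := μ.rowLen_anti 0 k (Nat.zero_le _)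
      have h1 := ih (μ.rowLen 0 - k) (by omega) k rfl hk
      have h2 := μ.colLen_anti i k hik.le
      omega
  exact fun i hi => key _ i rfl hi

theorem dd_of_col (μ : YoungDiagram) (h : ∀ i, i < μ.rowLen i → μ.colLen i = μ.rowLen i + 1) :
    DD μ := by
  intro i j hij
  rw [mem_row, mem_row, lt_iff μ (j + 1) i]
  by_cases hi : i < μ.rowLen i
  · have := h i hi
    omega
  · constructor
    · intro h1; omega
    · intro h1
      exact absurd ((lt_iff μ i i).2 (by omega)) hi

theorem col_of_dd (μ : YoungDiagram) (h : DD μ) (i : ℕ) (hi : i < μ.rowLen i) :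
    μ.colLen i = μ.rowLen i + 1 := by
  have h1 := h i (μ.rowLen i - 1) (by omega)
  have h2 := h i (μ.rowLen i) (by omega)
  rw [mem_row, mem_row, lt_iff μ _ i] at h1 h2
  omega

theorem content_of_dd (μ : YoungDiagram) (h : DD μ) (i j : ℕ) (hij : (i, j) ∈ μ) :
    csp μ (i, j) * (hook μ (i, j))⁻¹ = if j < i then 1 else -1 := by
  have hr : j < μ.rowLen i := (mem_row μ i j).1 hij
  have hc : i < μ.colLen j := (lt_iff μ i j).1 hr
  have hh : hook μ (i, j) ≠ 0 := by
    have : (0 : ℚ) < hook μ (i, j) := by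
      unfold hook
      have h1 : (j : ℚ) + 1 ≤ μ.rowLen i := by exact_mod_cast hr
      have h2 : (i : ℚ) + 1 ≤ μ.colLen j := by exact_mod_cast hc
      simp only
      linarith
    exact this.ne'
  by_cases hji : j < i
  · rw [if_pos hji]
    have hjj : j < μ.rowLen j := (lt_iff μ j j).2 (by omega)
    have e := col_of_dd μ h j hjj
    have : csp μ (i, j) = hook μ (i, j) := by
      unfold csp hook
      simp only [if_pos hji, e]
      push_cast; ring
    rw [this, mul_inv_cancel₀ hh]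
  · rw [if_neg hji]
    have hii : i < μ.rowLen i := by omega
    have e := col_of_dd μ h i hii
    have : csp μ (i, j) = - hook μ (i, j) := by
      unfold csp hook
      simp only [if_neg hji, e]
      push_cast; ring
    rw [this, neg_mul, mul_inv_cancel₀ hh]

/-- the weight of a diagram -/
def wt (μ : YoungDiagram) : ℚ := ∏ c ∈ μ.cells, csp μ c * (hook μ c)⁻¹

theorem exists_zero (μ : YoungDiagram) (h : ¬ DD μ) : ∃ c ∈ μ.cells, csp μ c = 0 := by
  by_contra hcon
  push Not at hcon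
  apply h
  apply dd_of_col
  apply col_eq_of_ne_zero
  · intro i j hij hm he
    apply hcon (i, j) ((YoungDiagram.mem_cells _).2 hm)
    have he' : (i : ℚ) + j + 2 - μ.colLen i - μ.colLen j = 0 := by exact_mod_cast he
    unfold csp
    simp only [if_neg (show ¬ j < i by omega)]
    linarith
  · intro i j hij hm he
    apply hcon (i, j) ((YoungDiagram.mem_cells _).2 hm)
    have he' : (μ.rowLen i : ℚ) + μ.rowLen j - i - j = 0 := by exact_mod_cast he
    unfold csp
    simp only [if_pos hij]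
    linarith

theorem wt_of_not_dd (μ : YoungDiagram) (h : ¬ DD μ) : wt μ = 0 := by
  obtain ⟨c, hc, h0⟩ := exists_zero μ h
  exact Finset.prod_eq_zero hc (by rw [h0, zero_mul])

theorem card_lower (μ : YoungDiagram) (h : DD μ) :
    (μ.cells.filter (fun c => c.2 < c.1)).card = (μ.cells.filter (fun c => ¬ c.2 < c.1)).card := by
  symm
  refine Finset.card_bij (fun c _ => (c.2 + 1, c.1)) ?_ ?_ ?_
  · rintro ⟨i, j⟩ hc
    simp only [mem_filter, YoungDiagram.mem_cells] at hc ⊢
    exact ⟨(h i j (by omega)).1 hc.1, by omega⟩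
  · rintro ⟨i, j⟩ _ ⟨i', j'⟩ _ he
    simp only [Prod.mk.injEq] at he ⊢
    omega
  · rintro ⟨i, j⟩ hc
    simp only [mem_filter, YoungDiagram.mem_cells] at hc
    refine ⟨(j, i - 1), ?_, ?_⟩
    · simp only [mem_filter, YoungDiagram.mem_cells]
      refine ⟨(h j (i - 1) (by omega)).2 ?_, by omega⟩
      rw [Nat.sub_add_cancel (by omega)]
      exact hc.1
    · simp only [Prod.mk.injEq, and_true]
      omega

theorem card_of_dd (μ : YoungDiagram) (h : DD μ) :
    μ.card = 2 * (μ.cells.filter (fun c => ¬ c.2 < c.1)).card := by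
  have h1 := card_lower μ h
  have h2 := Finset.card_filter_add_card_filter_not (s := μ.cells) (fun c => c.2 < c.1)
  have h3 : μ.card = μ.cells.card := rfl
  omega

theorem wt_of_dd (μ : YoungDiagram) (h : DD μ) : wt μ = (-1) ^ (μ.card / 2) := by
  have h1 : wt μ = ∏ c ∈ μ.cells, (if c.2 < c.1 then (1 : ℚ) else -1) := by
    unfold wt
    apply Finset.prod_congr rfl
    rintro ⟨i, j⟩ hc
    exact content_of_dd μ h i j ((YoungDiagram.mem_cells _).1 hc)
  rw [h1, Finset.prod_ite, Finset.prod_const_one, one_mul, Finset.prod_const]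
  congr 1
  have := card_of_dd μ h
  omega

end Pool.Agent.H611CH
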