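import Pool.Agent.H611CH.A

/-! Doubled distinct diagrams with `2 m` cells are counted by the strict partitions of `m`. -/

namespace Pool.Agent.H611CH

open Finset

/-- the number of elements of `T` greater than `x` -/
def N (T : Finset ℕ) (x : ℕ) : ℕ := (T.filter (fun t => x < t)).card

theorem N_anti (T : Finset ℕ) {x y : ℕ} (h : x ≤ y) : N T y ≤ N T x := by
  apply Finset.card_le_card
  intro t ht
  simp only [mem_filter] at ht ⊢
  exact ⟨ht.1, by omega⟩

theorem N_succ (T : Finset ℕ) (x : ℕ) : N T x = N T (x + 1) + (if x + 1 ∈ T then 1 else 0) := by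
  have h : T.filter (fun t => x < t) =
      (T.filter (fun t => x + 1 < t)) ∪ (T.filter (fun t => t = x + 1)) := by
    ext t
    simp only [mem_filter, mem_union]
    constructor
    · rintro ⟨h1, h2⟩
      rcases Nat.lt_or_ge (x + 1) t with h3 | h3
      · exact Or.inl ⟨h1, h3⟩
      · exact Or.inr ⟨h1, by omega⟩
    · rintro (⟨h1, h2⟩ | ⟨h1, h2⟩)
      · exact ⟨h1, by omega⟩
      · exact ⟨h1, by omega⟩
  have hd : Disjoint (T.filter (fun t => x + 1 < t)) (T.filter (fun t => t = x + 1)) := by
    rw [Finset.disjoint_left]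
    intro t ht ht'
    simp only [mem_filter] at ht ht'
    omega
  unfold N
  rw [h, Finset.card_union_of_disjoint hd]
  congr 1
  split_ifs with hx
  · rw [Finset.card_eq_one]
    refine ⟨x + 1, ?_⟩
    ext t
    simp only [mem_filter, mem_singleton]
    constructor
    · exact fun h => h.2
    · rintro rfl; exact ⟨hx, rfl⟩
  · rw [Finset.card_eq_zero, Finset.filter_eq_empty_iff]
    rintro t ht rfl
    exact hx ht

theorem N_le (T : Finset ℕ) (x : ℕ) : N T x ≤ T.card := Finset.card_filter_le _ _

theorem N_pos (T : Finset ℕ) (x : ℕ) (h : 0 < N T x) : x < T.sup id := by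
  obtain ⟨t, ht⟩ := Finset.card_pos.1 h
  simp only [mem_filter] at ht
  have : t ≤ T.sup id := Finset.le_sup (f := id) ht.1
  omega

/-- membership in the doubled diagram of `T` -/
def P (T : Finset ℕ) (c : ℕ × ℕ) : Prop :=
  (c.1 ≤ c.2 ∧ c.1 < N T (c.2 - c.1)) ∨ (c.2 < c.1 ∧ c.2 < N T (c.1 - 1 - c.2))

instance (T : Finset ℕ) : DecidablePred (P T) := fun c => by unfold P; infer_instance

def K (T : Finset ℕ) : ℕ := T.sup id + T.card + 1

theorem P_lt (T : Finset ℕ) (c : ℕ × ℕ) (h : P T c) : c.1 < K T ∧ c.2 < K T := by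
  obtain ⟨i, j⟩ := c
  unfold P at h
  unfold K
  simp only at h ⊢
  rcases h with ⟨h1, h2⟩ | ⟨h1, h2⟩
  · have h3 := N_le T (j - i)
    have h4 := N_pos T (j - i) (by omega)
    omega
  · have h3 := N_le T (i - 1 - j)
    have h4 := N_pos T (i - 1 - j) (by omega)
    omega

theorem P_step1 (T : Finset ℕ) (i j : ℕ) (h : P T (i + 1, j)) : P T (i, j) := by
  unfold P at h ⊢
  simp only at h ⊢
  rcases h with ⟨h1, h2⟩ | ⟨h1, h2⟩
  · left
    have h3 := N_succ T (j - (i + 1))
    rw [show j - (i + 1) + 1 = j - i by omega] at h3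
    refine ⟨by omega, ?_⟩
    split_ifs at h3 <;> omega
  · rcases Nat.lt_or_ge j i with h3 | h3
    · right
      refine ⟨h3, ?_⟩
      have := N_anti T (show i - 1 - j ≤ i + 1 - 1 - j by omega)
      omega
    · left
      have hij : i = j := by omega
      subst hij
      refine ⟨le_rfl, ?_⟩
      simpa using h2

theorem P_step2 (T : Finset ℕ) (i j : ℕ) (h : P T (i, j + 1)) : P T (i, j) := by
  unfold P at h ⊢
  simp only at h ⊢
  rcases h with ⟨h1, h2⟩ | ⟨h1, h2⟩
  · rcases Nat.lt_or_ge j i with h3 | h3
    · right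
      refine ⟨h3, ?_⟩
      have hij : i = j + 1 := by omega
      subst hij
      simp only [Nat.sub_self, Nat.add_sub_cancel] at h2 ⊢
      omega
    · left
      refine ⟨h3, ?_⟩
      have := N_anti T (show j - i ≤ j + 1 - i by omega)
      omega
  · right
    have h3 := N_succ T (i - 1 - (j + 1))
    rw [show i - 1 - (j + 1) + 1 = i - 1 - j by omega] at h3
    refine ⟨by omega, ?_⟩
    split_ifs at h3 <;> omega

theorem P_down (T : Finset ℕ) (i j i' j' : ℕ) (hi : i' ≤ i) (hj : j' ≤ j) (h : P T (i, j)) :
    P T (i', j') := by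
  have h1 : ∀ k, P T (i' + k, j) → P T (i', j) := by
    intro k
    induction k with
    | zero => exact id
    | succ k ih => exact fun h => ih (P_step1 T _ _ h)
  have h2 : ∀ k, P T (i', j' + k) → P T (i', j') := by
    intro k
    induction k with
    | zero => exact id
    | succ k ih => exact fun h => ih (P_step2 T _ _ h)
  apply h2 (j - j')
  rw [show j' + (j - j') = j by omega]
  apply h1 (i - i')
  rw [show i' + (i - i') = i by omega]
  exact h

/-- the doubled diagram of `T` -/
def G (T : Finset ℕ) : YoungDiagram where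
  cells := (range (K T) ×ˢ range (K T)).filter (P T)
  isLowerSet := by
    rintro ⟨i, j⟩ ⟨i', j'⟩ hle hm
    rw [Prod.mk_le_mk] at hle
    simp only [coe_filter, mem_product, mem_range, Set.mem_ofPred_eq] at hm ⊢
    have h1 := P_down T i j i' j' hle.1 hle.2 hm.2
    exact ⟨P_lt T _ h1, h1⟩

theorem mem_G (T : Finset ℕ) (i j : ℕ) : (i, j) ∈ G T ↔ P T (i, j) := by
  rw [← YoungDiagram.mem_cells]
  simp only [G, mem_filter, mem_product, mem_range]
  exact ⟨fun h => h.2, fun h => ⟨P_lt T _ h, h⟩⟩

theorem mem_G_upper (T : Finset ℕ) (i x : ℕ) : (i, i + x) ∈ G T ↔ i < N T x := by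
  rw [mem_G]
  unfold P
  simp only [Nat.add_sub_cancel_left]
  constructor
  · rintro (h | h)
    · exact h.2
    · omega
  · intro h
    exact Or.inl ⟨by omega, h⟩

theorem dd_G (T : Finset ℕ) : DD (G T) := by
  intro i j hij
  rw [mem_G, mem_G]
  unfold P
  simp only [Nat.add_sub_cancel]
  constructor
  · rintro (h | h)
    · exact Or.inr ⟨by omega, h.2⟩
    · omega
  · rintro (h | h)
    · omega
    · exact Or.inl ⟨hij, h.2⟩

theorem sum_N (T : Finset ℕ) (k : ℕ) (hk : T.sup id ≤ k) :
    ∑ x ∈ range k, N T x = ∑ t ∈ T, t := by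
  unfold N
  simp only [Finset.card_filter]
  rw [Finset.sum_comm]
  apply Finset.sum_congr rfl
  intro t ht
  have htk : t ≤ k := (Finset.le_sup (f := id) ht).trans hk
  rw [← Finset.card_filter]
  have : (range k).filter (fun x => x < t) = range t := by
    ext x
    simp only [mem_filter, mem_range]
    omega
  rw [this, card_range]

theorem card_G (T : Finset ℕ) : (G T).card = 2 * ∑ t ∈ T, t := by
  rw [card_of_dd _ (dd_G T), ← sum_N T (K T) (by unfold K; omega)]
  congr 1
  rw [Finset.card_eq_sum_card_fiberwise (f := fun c : ℕ × ℕ => c.2 - c.1) (t := range (K T))]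
  · apply Finset.sum_congr rfl
    intro x _
    rw [← Finset.card_range (N T x)]
    symm
    refine Finset.card_bij (fun i _ => (i, i + x)) ?_ ?_ ?_
    · intro i hi
      rw [mem_range] at hi
      simp only [mem_filter, YoungDiagram.mem_cells]
      exact ⟨⟨(mem_G_upper T i x).2 hi, by omega⟩, by omega⟩
    · intro i _ i' _ h
      simp only [Prod.mk.injEq] at h
      exact h.1
    · rintro ⟨i, j⟩ hc
      simp only [mem_filter, YoungDiagram.mem_cells] at hc
      obtain ⟨⟨h1, h2⟩, h3⟩ := hc
      have hj : j = i + x := by omega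
      subst hj
      exact ⟨i, mem_range.2 ((mem_G_upper T i x).1 h1), rfl⟩
  · rintro ⟨i, j⟩ hc
    simp only [coe_filter, YoungDiagram.mem_cells, Set.mem_ofPred_eq, mem_G] at hc
    have := (P_lt T (i, j) hc.1).2
    simp only [coe_range, Set.mem_Iio]
    simp only at this
    omega

theorem G_inj (T T' : Finset ℕ) (h0 : 0 ∉ T) (h0' : 0 ∉ T') (h : G T = G T') : T = T' := by
  have hN : ∀ x, N T x = N T' x := by
    intro x
    have h1 : ∀ i, i < N T x ↔ i < N T' x := by
      intro i
      rw [← mem_G_upper, ← mem_G_upper, h]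
    have h2 := h1 (N T x)
    have h3 := h1 (N T' x)
    omega
  ext t
  rcases Nat.eq_zero_or_pos t with rfl | ht
  · exact ⟨fun h => absurd h h0, fun h => absurd h h0'⟩
  · have h1 := N_succ T (t - 1)
    have h2 := N_succ T' (t - 1)
    rw [hN, hN, Nat.sub_add_cancel ht] at h1
    rw [Nat.sub_add_cancel ht] at h2
    by_cases ha : t ∈ T <;> by_cases hb : t ∈ T' <;> simp_all

/-- for a downward closed predicate with finitely many solutions -/
theorem lt_card_iff (Q : ℕ → Prop) [DecidablePred Q] (k : ℕ) (hk : ∀ i, Q i → i < k)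
    (hd : ∀ i i', i' ≤ i → Q i → Q i') (i : ℕ) : i < ((range k).filter Q).card ↔ Q i := by
  constructor
  · intro h
    by_contra hQ
    have : (range k).filter Q ⊆ range i := by
      intro x hx
      rw [mem_filter] at hx
      rw [mem_range]
      by_contra hcon
      exact hQ (hd x i (by omega) hx.2)
    have := Finset.card_le_card this
    rw [card_range] at this
    omega
  · intro h
    have : range (i + 1) ⊆ (range k).filter Q := by
      intro x hx
      rw [mem_range] at hx
      have := hd i x (by omega) h
      exact mem_filter.2 ⟨mem_range.2 (hk x this), this⟩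
    have := Finset.card_le_card this
    rw [card_range] at this
    omega

theorem G_surj (μ : YoungDiagram) (h : DD μ) : ∃ T : Finset ℕ, 0 ∉ T ∧ G T = μ := by
  classical
  set I := (range (μ.rowLen 0)).filter (fun i => i < μ.rowLen i) with hI
  set T := I.image (fun i => μ.rowLen i - i) with hT
  have hinj : Set.InjOn (fun i => μ.rowLen i - i) (I : Set ℕ) := by
    intro i hi i' hi' he
    simp only [hI, coe_filter, mem_range, Set.mem_ofPred_eq] at hi hi'
    simp only at he
    rcases Nat.lt_trichotomy i i' with h1 | h1 | h1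
    · have := μ.rowLen_anti i i' h1.le
      omega
    · exact h1
    · have := μ.rowLen_anti i' i h1.le
      omega
  have hN : ∀ x i, i < N T x ↔ (i, i + x) ∈ μ := by
    intro x i
    have h1 : N T x = ((range (μ.rowLen 0)).filter (fun i => i + x < μ.rowLen i)).card := by
      unfold N
      rw [hT, Finset.filter_image, Finset.card_image_of_injOn (hinj.mono (fun k hk => (Finset.mem_filter.1 (Finset.mem_coe.1 hk)).1))]
      rw [hI, Finset.filter_filter]
      congr 1
      apply Finset.filter_congr
      intro k _
      omega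
    rw [h1, lt_card_iff, mem_row]
    · intro k hk
      have := μ.rowLen_anti 0 k (Nat.zero_le _)
      omega
    · intro k k' hkk hk
      have := μ.rowLen_anti k' k hkk
      omega
  refine ⟨T, ?_, ?_⟩
  · rw [hT, mem_image]
    rintro ⟨i, hi, he⟩
    simp only [hI, mem_filter] at hi
    omega
  · ext ⟨i, j⟩
    rw [YoungDiagram.mem_cells, YoungDiagram.mem_cells, mem_G]
    unfold P
    simp only
    rcases Nat.lt_or_ge j i with hji | hij
    · rw [hN (i - 1 - j) j, show j + (i - 1 - j) = i - 1 by omega, h j (i - 1) (by omega),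
        Nat.sub_add_cancel (by omega)]
      constructor
      · rintro (h | h)
        · omega
        · exact h.2
      · exact fun h => Or.inr ⟨hji, h⟩
    · rw [hN (j - i) i, show i + (j - i) = j by omega]
      constructor
      · rintro (h | h)
        · exact h.2
        · omega
      · exact fun h => Or.inl ⟨hij, h⟩

theorem finite_card (n : ℕ) : {μ : YoungDiagram | μ.card = n}.Finite := by
  have hsub : ∀ μ : YoungDiagram, μ.card = n → μ.cells ⊆ range n ×ˢ range n := by
    rintro μ hμ ⟨i, j⟩ hc
    rw [YoungDiagram.mem_cells] at hc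
    have h1 : (range (i + 1)).image (fun k => (k, j)) ⊆ μ.cells := by
      intro c hc'
      rw [mem_image] at hc'
      obtain ⟨k, hk, rfl⟩ := hc'
      rw [mem_range] at hk
      exact (YoungDiagram.mem_cells _).2 (μ.up_left_mem (by omega) le_rfl hc)
    have h2 : (range (j + 1)).image (fun k => (i, k)) ⊆ μ.cells := by
      intro c hc'
      rw [mem_image] at hc'
      obtain ⟨k, hk, rfl⟩ := hc'
      rw [mem_range] at hk
      exact (YoungDiagram.mem_cells _).2 (μ.up_left_mem le_rfl (by omega) hc)
    have h3 := Finset.card_le_card h1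
    have h4 := Finset.card_le_card h2
    rw [Finset.card_image_of_injective _ (fun a b h => (Prod.mk.inj h).1), card_range] at h3
    rw [Finset.card_image_of_injective _ (fun a b h => (Prod.mk.inj h).2), card_range] at h4
    have h5 : μ.cells.card = n := hμ
    rw [mem_product, mem_range, mem_range]
    simp only
    omega
  apply Set.Finite.of_finite_image (f := YoungDiagram.cells)
  · apply Set.Finite.subset ((range n ×ˢ range n).powerset.finite_toSet)
    rintro s ⟨μ, hμ, rfl⟩
    exact Finset.mem_coe.2 (Finset.mem_powerset.2 (hsub μ hμ))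
  · intro μ _ μ' _ he
    exact YoungDiagram.ext he

/-- the Young diagrams with `n` cells, that is, the partitions of `n` -/
noncomputable def diagrams (n : ℕ) : Finset YoungDiagram := (finite_card n).toFinset

theorem mem_diagrams (n : ℕ) (μ : YoungDiagram) : μ ∈ diagrams n ↔ μ.card = n := by
  simp [diagrams]

open Classical in
theorem card_dd (m : ℕ) :
    ((diagrams (2 * m)).filter DD).card = (Nat.Partition.distincts m).card := by
  symm
  refine Finset.card_bij (fun p _ => G p.parts.toFinset) ?_ ?_ ?_
  · intro p hp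
    rw [Nat.Partition.distincts, mem_filter] at hp
    rw [mem_filter, mem_diagrams]
    refine ⟨?_, dd_G _⟩
    rw [card_G]
    congr 1
    conv_rhs => rw [← p.parts_sum]
    rw [Finset.sum, Multiset.toFinset_val, Multiset.dedup_eq_self.2 hp.2]
    simp
  · intro p hp q hq he
    rw [Nat.Partition.distincts, mem_filter] at hp hq
    have h1 := G_inj _ _ (fun h => by
      have := p.parts_pos (Multiset.mem_toFinset.1 h); omega) (fun h => by
      have := q.parts_pos (Multiset.mem_toFinset.1 h); omega) he
    apply Nat.Partition.ext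
    have h2 := congrArg Finset.val h1
    rwa [Multiset.toFinset_val, Multiset.toFinset_val, Multiset.dedup_eq_self.2 hp.2,
      Multiset.dedup_eq_self.2 hq.2] at h2
  · intro μ hμ
    rw [mem_filter, mem_diagrams] at hμ
    obtain ⟨T, h0, rfl⟩ := G_surj μ hμ.2
    have hs : ∑ t ∈ T, t = m := by
      have := card_G T
      omega
    refine ⟨⟨T.val, ?_, ?_⟩, ?_, ?_⟩
    · intro i hi
      rcases Nat.eq_zero_or_pos i with rfl | h
      · exact absurd hi h0
      · exact h
    · rw [← hs, Finset.sum]
      simp
    · rw [Nat.Partition.distincts, mem_filter]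
      exact ⟨mem_univ _, T.nodup⟩
    · simp

end Pool.Agent.H611CH
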