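import Pool.Agent.H611CH.B

/-! The generating function. -/

namespace Pool.Agent.H611CH

open Finset

/-- the sum of the weights of the diagrams with `n` cells -/
noncomputable def a (n : ℕ) : ℚ := ∑ μ ∈ diagrams n, wt μ

open Classical in
theorem a_eq (n : ℕ) : a n = (-1) ^ (n / 2) * (((diagrams n).filter DD).card : ℚ) := by
  unfold a
  rw [← Finset.sum_filter_add_sum_filter_not (diagrams n) DD]
  rw [Finset.sum_congr rfl (g := fun _ => ((-1) ^ (n / 2) : ℚ)) (s₁ := (diagrams n).filter DD)]
  · rw [Finset.sum_eq_zero (s := (diagrams n).filter (fun μ => ¬ DD μ))]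
    · simp [mul_comm]
    · intro μ hμ
      rw [mem_filter] at hμ
      exact wt_of_not_dd μ hμ.2
  · intro μ hμ
    rw [mem_filter, mem_diagrams] at hμ
    rw [wt_of_dd μ hμ.2, hμ.1]

theorem a_even (m : ℕ) : a (2 * m) = (-1) ^ m * ((Nat.Partition.distincts m).card : ℚ) := by
  rw [a_eq, card_dd, Nat.mul_div_cancel_left m (by norm_num)]

theorem a_odd (n : ℕ) (hn : n % 2 = 1) : a n = 0 := by
  classical
  rw [a_eq]
  have : (diagrams n).filter DD = ∅ := by
    rw [Finset.filter_eq_empty_iff]
    intro μ hμ h
    rw [mem_diagrams] at hμ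
    have := card_of_dd μ h
    omega
  simp [this]

/-- the character -/
def chi (i c : ℕ) : ℚ := if i % 4 = 2 then (-1) ^ c else 0

theorem sum_mod (s : Multiset ℕ) (h : ∀ i ∈ s, i % 4 = 2) : s.sum % 4 = (2 * s.card) % 4 := by
  induction s using Multiset.induction_on with
  | empty => simp
  | cons a s ih =>
    have h1 := ih (fun i hi => h i (Multiset.mem_cons_of_mem hi))
    have h2 := h a (Multiset.mem_cons_self a s)
    rw [Multiset.sum_cons, Multiset.card_cons]
    omega

theorem prod_chi {n : ℕ} (p : n.Partition) :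
    p.parts.toFinsupp.prod chi =
      if ∀ i ∈ p.parts, i % 4 = 2 then (-1) ^ (n / 2) else 0 := by
  unfold Finsupp.prod
  rw [Multiset.toFinsupp_support]
  simp only [Multiset.toFinsupp_apply]
  split_ifs with h
  · have h1 : ∀ i ∈ p.parts.toFinset, chi i (p.parts.count i) = (-1) ^ (p.parts.count i) := by
      intro i hi
      rw [Multiset.mem_toFinset] at hi
      rw [chi, if_pos (h i hi)]
    rw [Finset.prod_congr rfl h1, Finset.prod_pow_eq_pow_sum, Multiset.toFinset_sum_count_eq]
    have h2 := sum_mod p.parts h
    rw [p.parts_sum] at h2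
    rcases Nat.even_or_odd p.parts.card with h3 | h3
    · have h4 : Even (n / 2) := by
        rw [Nat.even_iff] at h3 ⊢
        omega
      rw [h3.neg_one_pow, h4.neg_one_pow]
    · have h4 : Odd (n / 2) := by
        rw [Nat.odd_iff] at h3 ⊢
        omega
      rw [h3.neg_one_pow, h4.neg_one_pow]
  · push Not at h
    obtain ⟨i, hi, hi'⟩ := h
    apply Finset.prod_eq_zero (i := i)
    · rwa [Multiset.mem_toFinset]
    · rw [chi, if_neg hi']

theorem card_restricted_two_mod_four (m : ℕ) :
    (Nat.Partition.restricted (2 * m) (fun i => i % 4 = 2)).card =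
      (Nat.Partition.odds m).card := by
  symm
  refine Finset.card_bij (fun (p : m.Partition) _ =>
    (⟨p.parts.map (fun i => 2 * i), ?_, ?_⟩ : (2 * m).Partition)) ?_ ?_ ?_
  · intro i hi
    rw [Multiset.mem_map] at hi
    obtain ⟨j, hj, rfl⟩ := hi
    have := p.parts_pos hj
    omega
  · rw [Multiset.sum_map_mul_left, Multiset.map_id', p.parts_sum]
  · intro p hp
    rw [Nat.Partition.odds, Nat.Partition.restricted, mem_filter] at hp
    rw [Nat.Partition.restricted, mem_filter]
    refine ⟨mem_univ _, ?_⟩
    intro i hi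
    simp only [Multiset.mem_map] at hi
    obtain ⟨j, hj, rfl⟩ := hi
    have := hp.2 j hj
    rw [Nat.not_even_iff] at this
    omega
  · intro p _ q _ h
    rw [Nat.Partition.mk.injEq] at h
    ext1
    exact Multiset.map_injective (fun x y hxy => by simpa using hxy) h
  · intro q hq
    rw [Nat.Partition.restricted, mem_filter] at hq
    have hm : (q.parts.map (fun i => i / 2)).map (fun i => 2 * i) = q.parts := by
      rw [Multiset.map_map]
      conv_rhs => rw [← Multiset.map_id' q.parts]
      apply Multiset.map_congr rfl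
      intro i hi
      have := hq.2 i hi
      simp only [Function.comp]
      omega
    refine ⟨⟨q.parts.map (fun i => i / 2), ?_, ?_⟩, ?_, ?_⟩
    · intro i hi
      rw [Multiset.mem_map] at hi
      obtain ⟨j, hj, rfl⟩ := hi
      have := hq.2 j hj
      omega
    · have h1 : ((q.parts.map (fun i => i / 2)).map (fun i => 2 * i)).sum = 2 * m := by
        rw [hm, q.parts_sum]
      rw [Multiset.sum_map_mul_left, Multiset.map_id'] at h1
      omega
    · rw [Nat.Partition.odds, Nat.Partition.restricted, mem_filter]
      refine ⟨mem_univ _, ?_⟩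
      intro i hi
      simp only [Multiset.mem_map] at hi
      obtain ⟨j, hj, rfl⟩ := hi
      have := hq.2 j hj
      rw [Nat.not_even_iff]
      omega
    · ext1
      exact hm

theorem restricted_odd (n : ℕ) (hn : n % 2 = 1) :
    (Nat.Partition.restricted n (fun i => i % 4 = 2)).card = 0 := by
  rw [Finset.card_eq_zero, Nat.Partition.restricted, Finset.filter_eq_empty_iff]
  intro p _ h
  have h2 := sum_mod p.parts h
  rw [p.parts_sum] at h2
  omega

theorem a_eq_coeff (n : ℕ) : a n = PowerSeries.coeff n (Nat.Partition.genFun chi) := by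
  rw [Nat.Partition.coeff_genFun]
  simp only [prod_chi]
  rw [Finset.sum_ite, Finset.sum_const_zero, add_zero, Finset.sum_const, nsmul_eq_mul]
  change a n = ((Nat.Partition.restricted n (fun i => i % 4 = 2)).card : ℚ) * (-1) ^ (n / 2)
  rcases Nat.even_or_odd' n with ⟨m, rfl | rfl⟩
  · rw [a_even, card_restricted_two_mod_four, Nat.Partition.card_odds_eq_card_distincts,
      Nat.mul_div_cancel_left m (by norm_num), mul_comm]
  · rw [a_odd _ (by omega), restricted_odd _ (by omega)]
    simp

end Pool.Agent.H611CH
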