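import Pool.Agent.H611CH.C

/-! The infinite product. -/

namespace Pool.Agent.H611CH

open Finset PowerSeries

open scoped PowerSeries.WithPiTopology in
theorem factor (i : ℕ) :
    (1 : ℚ⟦X⟧) + ∑' j, chi (i + 1) (j + 1) • (X : ℚ⟦X⟧) ^ ((i + 1) * (j + 1)) =
      if (i + 1) % 4 = 2 then (1 + (X : ℚ⟦X⟧) ^ (i + 1))⁻¹ else 1 := by
  split_ifs with h
  · have h0 : constantCoeff (-(X : ℚ⟦X⟧) ^ (i + 1)) = 0 := by simp
    have h1 : ∀ j, chi (i + 1) (j + 1) • (X : ℚ⟦X⟧) ^ ((i + 1) * (j + 1)) =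
        (-(X : ℚ⟦X⟧) ^ (i + 1)) ^ (j + 1) := by
      intro j
      rw [chi, if_pos h, pow_mul, smul_eq_C_mul, neg_pow ((X : ℚ⟦X⟧) ^ (i + 1))]
      simp
    simp_rw [h1]
    have h2 := WithPiTopology.summable_pow_of_constantCoeff_eq_zero h0
    have h3 := h2.tsum_eq_zero_add
    rw [pow_zero] at h3
    rw [← h3]
    rw [PowerSeries.eq_inv_iff_mul_eq_one (by simp)]
    have h4 := WithPiTopology.tsum_pow_mul_one_sub_of_constantCoeff_eq_zero h0
    rwa [sub_neg_eq_add] at h4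
  · simp [chi, h]

open scoped PowerSeries.WithPiTopology in
theorem hasProd_main :
    HasProd (fun k : ℕ => (1 + (X : ℚ⟦X⟧) ^ (4 * k + 2))⁻¹) (PowerSeries.mk a) := by
  have h1 := Nat.Partition.hasProd_genFun chi
  simp_rw [factor] at h1
  have h2 : PowerSeries.mk a = Nat.Partition.genFun chi := by
    ext n
    rw [coeff_mk, a_eq_coeff]
  rw [h2]
  have hinj : Function.Injective (fun k : ℕ => 4 * k + 1) := by
    intro x y hxy
    simp only at hxy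
    omega
  rw [← hinj.hasProd_iff] at h1
  · have h3 : ((fun i => if (i + 1) % 4 = 2 then (1 + (X : ℚ⟦X⟧) ^ (i + 1))⁻¹ else 1) ∘
        fun k => 4 * k + 1) = fun k : ℕ => (1 + (X : ℚ⟦X⟧) ^ (4 * k + 2))⁻¹ := by
      funext k
      simp only [Function.comp]
      rw [if_pos (by omega)]
    rw [h3] at h1
    exact h1
  · intro i hi
    rw [if_neg]
    intro h
    apply hi
    exact ⟨i / 4, by simp only; omega⟩

theorem stable (n K j : ℕ) (h : n < 4 * K + 2) :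
    coeff n (∏ k ∈ range (K + j), (1 + (X : ℚ⟦X⟧) ^ (4 * k + 2))⁻¹) =
      coeff n (∏ k ∈ range K, (1 + (X : ℚ⟦X⟧) ^ (4 * k + 2))⁻¹) := by
  induction j with
  | zero => rfl
  | succ j ih =>
    rw [← add_assoc, Finset.prod_range_succ, ← ih]
    have h1 : (1 + (X : ℚ⟦X⟧) ^ (4 * (K + j) + 2))⁻¹ =
        1 - (X : ℚ⟦X⟧) ^ (4 * (K + j) + 2) * (1 + (X : ℚ⟦X⟧) ^ (4 * (K + j) + 2))⁻¹ := by
      have h2 : (1 + (X : ℚ⟦X⟧) ^ (4 * (K + j) + 2)) * (1 + (X : ℚ⟦X⟧) ^ (4 * (K + j) + 2))⁻¹ = 1 :=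
        PowerSeries.mul_inv_cancel _ (by simp)
      linear_combination h2
    rw [h1, mul_sub, mul_one, map_sub]
    have h3 : coeff n ((∏ k ∈ range (K + j), (1 + (X : ℚ⟦X⟧) ^ (4 * k + 2))⁻¹) *
        ((X : ℚ⟦X⟧) ^ (4 * (K + j) + 2) * (1 + (X : ℚ⟦X⟧) ^ (4 * (K + j) + 2))⁻¹)) = 0 := by
      rw [mul_left_comm, PowerSeries.coeff_X_pow_mul']
      rw [if_neg (by omega)]
    rw [h3, sub_zero]

open scoped PowerSeries.WithPiTopology in
theorem coeff_main (n K : ℕ) (h : n < 4 * K + 2) :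
    coeff n (∏ k ∈ range K, (1 + (X : ℚ⟦X⟧) ^ (4 * k + 2))⁻¹) = a n := by
  have h1 := hasProd_main.tendsto_prod_nat
  have h2 := ((WithPiTopology.continuous_coeff ℚ n).tendsto _).comp h1
  rw [coeff_mk] at h2
  have h3 : Filter.Tendsto
      ((fun P : ℚ⟦X⟧ => coeff n P) ∘ fun N => ∏ k ∈ range N, (1 + (X : ℚ⟦X⟧) ^ (4 * k + 2))⁻¹)
      Filter.atTop (nhds (coeff n (∏ k ∈ range K, (1 + (X : ℚ⟦X⟧) ^ (4 * k + 2))⁻¹))) := by
    apply tendsto_atTop_of_eventually_const (i₀ := K)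
    intro N hN
    obtain ⟨j, rfl⟩ := Nat.exists_eq_add_of_le hN
    exact stable n K j h
  exact tendsto_nhds_unique h3 h2

end Pool.Agent.H611CH
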